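import Mathlib

namespace Pool.Agent.Results.MP_2d7e0f_pr.Att

open MeasureTheory unitInterval Function Filter Topology

/-- the `C`-volume of the box `[u, v]`; `S` is the set of coordinates taken from `u` -/
def vol {n : ℕ} (C : (Fin n → I) → ℝ) (u v : Fin n → I) : ℝ :=
  ∑ S : Finset (Fin n), (-1) ^ S.card * C (fun k => if k ∈ S then u k else v k)

/-- `n`-copulas -/
def IsCopula {n : ℕ} (C : (Fin n → I) → ℝ) : Prop :=
  (∀ x, C x ∈ Set.Icc (0 : ℝ) 1) ∧ (∀ x k, x k = 0 → C x = 0) ∧
  (∀ x k, (∀ j, j ≠ k → x j = 1) → C x = x k) ∧ ∀ u v, u ≤ v → 0 ≤ vol C u v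

/-- the lower Frechet bound -/
def W {n : ℕ} (x : Fin n → I) : ℝ := max (∑ k, (x k : ℝ) - n + 1) 0

/-- the supremum `s_n` -/
noncomputable def sup (n : ℕ) : ENNReal :=
  ⨆ (A : Set (Fin n → I)) (_ : MeasurableSet A)
    (_ : ∃ C, IsCopula C ∧ ∀ x ∈ A, C x = W x), volume A

section
variable {n : ℕ} {C : (Fin n → I) → ℝ}

theorem volT (hC : IsCopula C) (u v : Fin n → I) (T : Finset (Fin n)) (h : ∀ k ∉ T, u k = 0) :
    vol C u v = ∑ S ∈ T.powerset, (-1) ^ S.card * C (fun k => if k ∈ S then u k else v k) := by
  symm
  apply Finset.sum_subset (Finset.subset_univ _)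
  intro S _ hS
  rw [Finset.mem_powerset, Finset.not_subset] at hS
  obtain ⟨k, h1, h2⟩ := hS
  rw [hC.2.1 _ k (by simp [h1, h k h2]), mul_zero]

theorem mono1 (hC : IsCopula C) (x : Fin n → I) (j : Fin n) (a b : I) (hab : a ≤ b) :
    C (update x j a) ≤ C (update x j b) := by
  have h := hC.2.2.2 (update (0 : Fin n → I) j a) (update x j b) (by
    intro k
    by_cases e : k = j
    · subst e; simpa using hab
    · simp [e, unitInterval.nonneg'])
  rw [volT hC _ _ (insert j ∅) (by intro k hk; simp at hk; simp [hk]),
    Finset.sum_powerset_insert (by simp)] at h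
  simp only [Finset.powerset_empty, Finset.sum_singleton] at h
  have e1 : (fun k => if k ∈ (∅ : Finset (Fin n)) then update (0 : Fin n → I) j a k else update x j b k) =
      update x j b := by ext k; simp
  have e2 : (fun k => if k ∈ insert j (∅ : Finset (Fin n)) then update (0 : Fin n → I) j a k
      else update x j b k) = update x j a := by
    funext k
    by_cases e : k = j
    · subst e; simp
    · simp [e]
  rw [e1, e2] at h
  simp at h
  linarith

theorem mono2 (hC : IsCopula C) (x : Fin n → I) (j k : Fin n) (a b : I) (hab : a ≤ b) :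
    C (update x j b) - C (update x j a) ≤
      C (update (update x k 1) j b) - C (update (update x k 1) j a) := by
  by_cases hjk : k = j
  · subst hjk; simp
  have h := hC.2.2.2 (update (update (0 : Fin n → I) k (x k)) j a) (update (update x k 1) j b) (by
    intro i
    by_cases e : i = j
    · subst e; simpa using hab
    · by_cases e' : i = k
      · subst e'; simp [e, unitInterval.le_one']
      · simp [e, e', unitInterval.nonneg'])
  rw [volT hC _ _ (insert j (insert k ∅)) (by intro i hi; simp at hi; simp [hi]),
    Finset.sum_powerset_insert (by simp [Ne.symm hjk]), Finset.sum_powerset_insert (by simp),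
    Finset.sum_powerset_insert (by simp)] at h
  simp only [Finset.powerset_empty, Finset.sum_singleton] at h
  have e1 : (fun i => if i ∈ (∅ : Finset (Fin n)) then update (update (0 : Fin n → I) k (x k)) j a i
      else update (update x k 1) j b i) = update (update x k 1) j b := by ext k; simp
  have e2 : (fun i => if i ∈ insert k (∅ : Finset (Fin n)) then update (update (0 : Fin n → I) k (x k)) j a i
      else update (update x k 1) j b i) = update x j b := by
    funext i
    by_cases e : i = j
    · subst e; simp [Ne.symm hjk]
    · by_cases e' : i = k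
      · subst e'; simp [e]
      · simp [e, e']
  have e3 : (fun i => if i ∈ insert j (∅ : Finset (Fin n)) then update (update (0 : Fin n → I) k (x k)) j a i
      else update (update x k 1) j b i) = update (update x k 1) j a := by
    funext i
    by_cases e : i = j
    · subst e; simp
    · simp [e]
  have e4 : (fun i => if i ∈ insert j (insert k (∅ : Finset (Fin n))) then
      update (update (0 : Fin n → I) k (x k)) j a i else update (update x k 1) j b i) = update x j a := by
    funext i
    by_cases e : i = j
    · subst e; simp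
    · by_cases e' : i = k
      · subst e'; simp [e]
      · simp [e, e']
  rw [e1, e2, e3, e4] at h
  have c2 : (insert j (insert k (∅ : Finset (Fin n)))).card = 2 := by
    rw [Finset.card_insert_of_notMem (by simp [Ne.symm hjk])]; simp
  rw [c2] at h
  simp at h
  linarith

theorem lip1 (hC : IsCopula C) (x : Fin n → I) (j : Fin n) (a b : I) (hab : a ≤ b) :
    C (update x j b) - C (update x j a) ≤ b - a := by
  have key : ∀ S : Finset (Fin n), C (update x j b) - C (update x j a) ≤
      C (update (S.piecewise 1 x) j b) - C (update (S.piecewise 1 x) j a) := by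
    intro S
    induction S using Finset.induction_on with
    | empty => simp
    | insert k S _ ih =>
      rw [Finset.piecewise_insert]
      exact ih.trans (mono2 hC _ j k a b hab)
  have := key Finset.univ
  rw [Finset.piecewise_univ, hC.2.2.1 (update 1 j b) j (fun i hi => by simp [hi]),
    hC.2.2.1 (update 1 j a) j (fun i hi => by simp [hi])] at this
  simpa using this

theorem lip2 (hC : IsCopula C) (x : Fin n → I) (j : Fin n) (b : I) :
    |C (update x j b) - C x| ≤ dist b (x j) := by
  have e : C x = C (update x j (x j)) := by simp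
  rw [e, Subtype.dist_eq, Real.dist_eq]
  rcases le_total b (x j) with h | h
  · have h1 := mono1 hC x j _ _ h
    have h2 := lip1 hC x j _ _ h
    have h3 : (b : ℝ) ≤ x j := h
    rw [abs_of_nonpos (by linarith), abs_of_nonpos (by linarith)]
    linarith
  · have h1 := mono1 hC x j _ _ h
    have h2 := lip1 hC x j _ _ h
    have h3 : (x j : ℝ) ≤ b := h
    rw [abs_of_nonneg (by linarith), abs_of_nonneg (by linarith)]
    linarith

theorem lip (hC : IsCopula C) (x y : Fin n → I) : |C y - C x| ≤ n * dist y x := by
  have key : ∀ S : Finset (Fin n), |C (S.piecewise y x) - C x| ≤ S.card * dist y x := by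
    intro S
    induction S using Finset.induction_on with
    | empty => simp
    | insert k S hk ih =>
      rw [Finset.piecewise_insert, Finset.card_insert_of_notMem hk]
      have h1 := lip2 hC (S.piecewise y x) k (y k)
      rw [Finset.piecewise_eq_of_notMem _ _ _ hk] at h1
      have h2 := dist_le_pi_dist y x k
      have h3 := abs_sub_le (C (update (S.piecewise y x) k (y k))) (C (S.piecewise y x)) (C x)
      push_cast
      linarith
  simpa using key Finset.univ

theorem cont (hC : IsCopula C) : Continuous C := by
  have : LipschitzWith n C := LipschitzWith.of_dist_le_mul fun x y => by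
    rw [Real.dist_eq]; simpa using lip hC y x
  exact this.continuous

theorem contW : Continuous (W : (Fin n → I) → ℝ) := by
  unfold W
  fun_prop

theorem prodC : IsCopula (fun x : Fin n → I => ∏ k, (x k : ℝ)) := by
  refine ⟨fun x => ⟨Finset.prod_nonneg fun k _ => (x k).2.1,
    Finset.prod_le_one (fun k _ => (x k).2.1) fun k _ => (x k).2.2⟩,
    fun x k h => Finset.prod_eq_zero (Finset.mem_univ k) (by simp [h]), fun x k h => ?_,
    fun u v h => ?_⟩
  · apply Finset.prod_eq_single k
    · intro j _ hj; simp [h j hj]
    · simp
  · have : vol (fun x : Fin n → I => ∏ k, (x k : ℝ)) u v = ∏ k, (-(u k : ℝ) + v k) := by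
      rw [Finset.prod_add, Finset.powerset_univ]
      apply Finset.sum_congr rfl
      intro S _
      rw [Finset.prod_neg, mul_assoc]
      congr 1
      have := Finset.prod_piecewise Finset.univ S (fun k => (u k : ℝ)) (fun k => (v k : ℝ))
      rw [Finset.univ_inter] at this
      rw [← this]
      apply Finset.prod_congr rfl
      intro k _
      by_cases e : k ∈ S <;> simp [e]
    rw [this]
    apply Finset.prod_nonneg
    intro k _
    have : (u k : ℝ) ≤ v k := h k
    linarith

theorem compact : IsCompact {C : (Fin n → I) → ℝ | IsCopula C} := by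
  apply (isCompact_univ_pi fun _ : Fin n → I => (isCompact_Icc : IsCompact (Set.Icc (0 : ℝ) 1))
    ).of_isClosed_subset _ (fun C hC x _ => hC.1 x)
  simp only [IsCopula, Set.ofPred_and, Set.ofPred_forall]
  refine IsClosed.inter ?_ (IsClosed.inter ?_ (IsClosed.inter ?_ ?_))
  · exact isClosed_iInter fun x => isClosed_Icc.preimage (continuous_apply x)
  · exact isClosed_iInter fun x => isClosed_iInter fun k => isClosed_iInter fun _ =>
      isClosed_eq (continuous_apply x) continuous_const
  · exact isClosed_iInter fun x => isClosed_iInter fun k => isClosed_iInter fun _ =>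
      isClosed_eq (continuous_apply x) continuous_const
  · refine isClosed_iInter fun u => isClosed_iInter fun v => isClosed_iInter fun _ =>
      isClosed_le continuous_const ?_
    unfold vol
    fun_prop

theorem usc : UpperSemicontinuousOn (fun C : (Fin n → I) → ℝ => volume {x | C x = W x})
    {C | IsCopula C} := by
  intro C hC y hy
  let s : ℕ → Set (Fin n → I) := fun m => {x | |C x - W x| ≤ 1 / ((m : ℝ) + 1)}
  have h1 := tendsto_measure_iInter_atTop (μ := volume) (s := s)
    (fun m => (isClosed_le ((cont hC).sub contW).abs continuous_const).measurableSet.nullMeasurableSet)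
    (fun a b hab x hx => le_trans (b := 1 / ((b : ℝ) + 1)) hx (Nat.one_div_le_one_div hab)) ⟨0, measure_ne_top _ _⟩
  have h2 : ⋂ m, s m = {x | C x = W x} := by
    ext x
    simp only [s, Set.mem_iInter, Set.mem_ofPred_eq]
    constructor
    · intro h
      by_contra hne
      obtain ⟨m, hm⟩ := exists_nat_one_div_lt (abs_pos.mpr (sub_ne_zero.mpr hne))
      exact absurd (h m) (not_le.mpr hm)
    · intro h m
      rw [h, sub_self, abs_zero]
      positivity
  rw [h2] at h1
  obtain ⟨m, hm⟩ := (h1.eventually (gt_mem_nhds hy)).exists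
  set ε : ℝ := 1 / ((m : ℝ) + 1) with hε
  have ε0 : 0 < ε := by positivity
  obtain ⟨F, -, hF, hcov⟩ := finite_cover_balls_of_compact
    (isCompact_univ (X := Fin n → I)) (e := ε / (3 * (n + 1))) (by positivity)
  have h3 : ∀ᶠ D in 𝓝 C, ∀ z ∈ F, |D z - C z| < ε / 3 := by
    rw [hF.eventually_all]
    intro z _
    have : ContinuousAt (fun D : (Fin n → I) → ℝ => |D z - C z|) C :=
      (((continuous_apply z).sub continuous_const).abs).continuousAt
    exact this.eventually (gt_mem_nhds (by simp; positivity))
  filter_upwards [nhdsWithin_le_nhds h3, self_mem_nhdsWithin] with D hD hD'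
  refine lt_of_le_of_lt (measure_mono ?_) hm
  intro x hx
  have hx' : D x = W x := hx
  have := hcov (Set.mem_univ x)
  simp only [Set.mem_iUnion, Metric.mem_ball] at this
  obtain ⟨z, hz, hxz⟩ := this
  have a1 := hD z hz
  have a2 := lip hC z x
  have a3 := lip hD' z x
  have a4 : (n : ℝ) * dist x z ≤ ε / 3 := by
    rw [lt_div_iff₀ (by positivity)] at hxz
    nlinarith [dist_nonneg (x := x) (y := z)]
  change |C x - W x| ≤ ε
  rw [← hx']
  rw [abs_le] at a2 a3 ⊢
  rw [abs_lt] at a1
  constructor <;> linarith [a1.1, a1.2, a2.1, a2.2, a3.1, a3.2]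
end

theorem result (n : ℕ) : ∃ C : (Fin n → I) → ℝ, IsCopula C ∧ MeasurableSet {x | C x = W x} ∧
    volume {x | C x = W x} = sup n := by
  obtain ⟨C, hC, hmax⟩ := UpperSemicontinuousOn.exists_isMaxOn
    (s := {C : (Fin n → I) → ℝ | IsCopula C}) ⟨_, prodC⟩ compact (usc (n := n))
  have hm : MeasurableSet {x | C x = W x} := (isClosed_eq (cont hC) contW).measurableSet
  refine ⟨C, hC, hm, le_antisymm ?_ ?_⟩
  · exact le_iSup₂_of_le _ hm (le_iSup_of_le ⟨C, hC, fun _ h => h⟩ le_rfl)
  · refine iSup_le fun A => iSup_le fun _ => iSup_le ?_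
    rintro ⟨D, hD, hA⟩
    exact (measure_mono (fun x hx => hA x hx)).trans (hmax hD)

end Pool.Agent.Results.MP_2d7e0f_pr.Att
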